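import Mathlib
import Pool.Agent.Helper96.LB3.Stmts

/-!
LB3, rows VO0 and VO1: positivity, monotonicity and the first shrinking estimate.
-/

open MeasureTheory Module Set
open scoped ENNReal

namespace Pool.Agent.Helper39.LB3

open Pool.Agent.Helper96.LB3

variable {Y ι : Type} [NormedAddCommGroup Y] [NormedSpace ℝ Y]

theorem ks_fn (β : ι → Y →ₗ[ℝ] ℝ) (q h : ι → ℝ) : KS (fn β q) h = KB β q h := by
  ext x
  simp [KS, KB, fn]

theorem sep_fn {β : ι → Y →ₗ[ℝ] ℝ} {q : ι → ℝ} (hs : SepB β q) : Sep (fn β q) := by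
  intro x hx
  have h := hs x.1 x.2 (fun u => by simpa [fn] using hx u)
  exact Prod.ext h.1 h.2

theorem pb_eq (β : ι → Y →ₗ[ℝ] ℝ) (q h : ι → ℝ) : PB β q h = Prod.fst '' KB β q h := by
  ext y
  constructor
  · rintro ⟨z, hz⟩
    exact ⟨(y, z), hz, rfl⟩
  · rintro ⟨⟨y', z⟩, hz, rfl⟩
    exact ⟨z, hz⟩

theorem kb_mono (β : ι → Y →ₗ[ℝ] ℝ) (q : ι → ℝ) {h h' : ι → ℝ} (hle : ∀ u, h' u ≤ h u) :
    KB β q h' ⊆ KB β q h := fun _ hx u => (hx u).trans (hle u)

theorem isClosed_kb [FiniteDimensional ℝ Y] (β : ι → Y →ₗ[ℝ] ℝ) (q h : ι → ℝ) : IsClosed (KB β q h) := by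
  have : KB β q h = ⋂ u, {x : Y × ℝ | |β u x.1 + q u * x.2| ≤ h u} := by
    ext x
    simp [KB]
  rw [this]
  refine isClosed_iInter fun u => ?_
  have hc : Continuous (β u) := LinearMap.continuous_of_finiteDimensional (β u)
  exact isClosed_le (by fun_prop) continuous_const

section Basic

variable [FiniteDimensional ℝ Y] [MeasurableSpace Y] [BorelSpace Y]

theorem kb_facts (hP : ST_POS) (ν : Measure Y) [ν.IsAddHaarMeasure] [Fintype ι]
    (β : ι → Y →ₗ[ℝ] ℝ) (q : ι → ℝ) (hs : SepB β q) (h : ι → ℝ) (hh : ∀ u, 0 < h u) :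
    IsCompact (KB β q h) ∧ 0 < VB ν β q h ∧
      (ν.prod (volume : Measure ℝ)) (KB β q h) < ∞ := by
  have := hP (Y × ℝ) ι (ν.prod (volume : Measure ℝ)) (fn β q) h (sep_fn hs) hh
  rw [ks_fn] at this
  refine ⟨this.1, ?_, this.2.2.2⟩
  have h2 := this.2.2.1
  rw [VS, ks_fn] at h2
  exact h2

theorem pb_facts (hP : ST_POS) (ν : Measure Y) [ν.IsAddHaarMeasure] [Fintype ι]
    (β : ι → Y →ₗ[ℝ] ℝ) (q : ι → ℝ) (hs : SepB β q) (h : ι → ℝ) (hh : ∀ u, 0 < h u) :
    IsCompact (PB β q h) ∧ 0 < AB ν β q h ∧ ν (PB β q h) < ∞ := by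
  obtain ⟨hc, hv, hf⟩ := kb_facts hP ν β q hs h hh
  have hpc : IsCompact (PB β q h) := by
    rw [pb_eq]
    exact hc.image continuous_fst
  have hpf : ν (PB β q h) < ∞ := hpc.measure_lt_top
  refine ⟨hpc, ?_, hpf⟩
  rw [AB, measureReal_def, ENNReal.toReal_pos_iff]
  refine ⟨?_, hpf⟩
  rw [pos_iff_ne_zero]
  intro h0
  have h1 : (ν.prod (volume : Measure ℝ)) (KB β q h) = 0 := by
    refine measure_mono_null (t := PB β q h ×ˢ (univ : Set ℝ)) ?_ ?_
    · intro x hx
      exact ⟨⟨x.2, hx⟩, mem_univ _⟩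
    · rw [Measure.prod_prod, h0, zero_mul]
  rw [VB, measureReal_def, h1] at hv
  simp at hv

end Basic

theorem st_VO0 : ST_POS → ST_VO0 := by
  intro hP Y ι _ _ _ _ _ ν _ _ β q hs h hh
  obtain ⟨hc, hv, hf⟩ := kb_facts hP ν β q hs h hh
  obtain ⟨_, hp, _⟩ := pb_facts hP ν β q hs h hh
  refine ⟨hv, hp, fun h' hle => ?_⟩
  rw [VB, VB]
  exact measureReal_mono (kb_mono β q hle) hf.ne

theorem st_VO1 : ST_POS → ST_FIB → ST_VO1 := by
  intro hP hF Y ι _ _ _ _ _ ν _ _ β q hs h hh t ht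
  obtain ⟨hc, hv, hf⟩ := kb_facts hP ν β q hs h hh
  obtain ⟨hpc, hp, hpf⟩ := pb_facts hP ν β q hs h hh
  set h' : ι → ℝ := fun u => h u - t * |q u| with hh'
  have hsub : KB β q h' ⊆ KB β q h :=
    kb_mono β q fun u => by
      have : 0 ≤ t * |q u| := mul_nonneg ht (abs_nonneg _)
      simp only [hh']
      linarith
  have hf' : (ν.prod (volume : Measure ℝ)) (KB β q h') < ∞ :=
    lt_of_le_of_lt (measure_mono hsub) hf
  have hm : MeasurableSet (KB β q h) := (isClosed_kb β q h).measurableSet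
  have hm' : MeasurableSet (KB β q h') := (isClosed_kb β q h').measurableSet
  have hpm : MeasurableSet (PB β q h) := hpc.isClosed.measurableSet
  have key : (ν.prod (volume : Measure ℝ)) (KB β q h) ≤
      (ν.prod (volume : Measure ℝ)) (KB β q h') + ENNReal.ofReal (2 * t) * ν (PB β q h) := by
    rw [Measure.prod_apply hm, Measure.prod_apply hm', ← lintegral_indicator_const hpm,
      ← lintegral_add_left (measurable_measure_prodMk_left hm')]
    refine lintegral_mono fun y => ?_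
    obtain ⟨a, b, hab⟩ := hF Y ι β q hs h y
    have e0 : Prod.mk y ⁻¹' KB β q h = FB β q h y := rfl
    have e1 : Prod.mk y ⁻¹' KB β q h' = FB β q h' y := rfl
    have f0 : FB β q h y = Icc a b := by
      have := hab 0 le_rfl
      simpa using this
    have f1 : FB β q h' y = Icc (a + t) (b - t) := hab t ht
    rw [e0, e1, f0, f1, Real.volume_Icc, Real.volume_Icc]
    by_cases hy : y ∈ PB β q h
    · rw [indicator_of_mem hy]
      have e2 : b - a = (b - t - (a + t)) + 2 * t := by ring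
      rw [e2]
      exact ENNReal.ofReal_add_le
    · have : b < a := by
        by_contra hba
        have : a ∈ FB β q h y := by
          rw [f0]
          exact ⟨le_rfl, not_lt.mp hba⟩
        exact hy ⟨a, this⟩
      rw [ENNReal.ofReal_of_nonpos (by linarith)]
      exact zero_le
  have hfin : ENNReal.ofReal (2 * t) * ν (PB β q h) < ∞ :=
    ENNReal.mul_lt_top ENNReal.ofReal_lt_top hpf
  have h3 := ENNReal.toReal_mono (ENNReal.add_lt_top.mpr ⟨hf', hfin⟩).ne key
  rw [ENNReal.toReal_add hf'.ne hfin.ne, ENNReal.toReal_mul,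
    ENNReal.toReal_ofReal (by linarith)] at h3
  rw [VB, VB, AB, measureReal_def, measureReal_def, measureReal_def]
  linarith

end Pool.Agent.Helper39.LB3
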